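import Pool.Agent.H71.CR.Stmt

/-! BLK: the type of a replaced block. -/

set_option autoImplicit false

open Set Pool.Agent.TK Pool.Agent.H71.VK

namespace Pool.Agent.CR

private lemma h78_zip_self {L : List ℕ} {q : ℕ × ℕ} (h : q ∈ L.zip L) : q.1 = q.2 ∧ q.1 ∈ L := by
  induction L with
  | nil => simp at h
  | cons a L ih =>
    rw [List.zip_cons_cons, List.mem_cons] at h
    rcases h with rfl | h
    · exact ⟨rfl, List.mem_cons_self⟩
    · exact ⟨(ih h).1, List.mem_cons_of_mem _ (ih h).2⟩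

theorem pf_BLK {C : Type} (hRPB : T_RPB C) : T_BLK C := by
  intro ι c0 n b M B z R hRA T i hi
  obtain ⟨r1, -, r3⟩ := hRPB ι c0 n b M B z R hRA T
  refine ⟨id, rfl, Set.bijOn_id _, ?_⟩
  intro x hx
  have hq : ∀ q ∈ (z i).zip (z i) ++ x.map (fun s => (s, id s)),
      q.1 = q.2 ∧ (q.1 ∈ B i ∨ q.1 ∈ z i) := by
    intro q hq
    rcases List.mem_append.1 hq with h | h
    · exact ⟨(h78_zip_self h).1, Or.inr (h78_zip_self h).2⟩
    · obtain ⟨s, hs, rfl⟩ := List.mem_map.1 h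
      exact ⟨rfl, Or.inl (hx s hs)⟩
  refine ⟨?_, ?_, ?_⟩
  · intro q h1 q' h2
    rw [(hq q h1).1, (hq q' h2).1]
  · intro q h1 q' h2
    rw [r1.1, (hRA.vaR i).1, (hq q h1).1, (hq q' h2).1]
  · intro q h1
    have e : q.map Prod.snd = q.map Prod.fst :=
      List.map_congr_left fun s hs => (hq s (h1 s hs)).1.symm
    rw [e]
    refine r3 i hi _ fun y hy => ?_
    obtain ⟨s, hs, rfl⟩ := List.mem_map.1 hy
    exact (hq s (h1 s hs)).2

end Pool.Agent.CR
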